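import Pool.Agent.Run7.h222.SU.Stm

/-!
Project SU of helper222 (MP_ca7eb7_al), piece EMB, by helper774.
-/

set_option autoImplicit false

open Matrix Run7.h222.SU

namespace Run7.h774.SU

theorem exists_equiv (n : ℕ) (p q : Fin n) (hpq : p ≠ q) :
    ∃ e : Fin 2 ⊕ {i : Fin n // i ≠ p ∧ i ≠ q} ≃ Fin n, e (Sum.inl 0) = p ∧ e (Sum.inl 1) = q ∧
      ∀ i, e (Sum.inr i) = i.1 := by
  refine ⟨Equiv.ofBijective (Sum.elim ![p, q] (fun i => i.1)) ⟨?_, ?_⟩, rfl, rfl, fun i => rfl⟩
  · rintro (a | a) (b | b) h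
    · fin_cases a <;> fin_cases b
      · rfl
      · exact absurd h hpq
      · exact absurd h.symm hpq
      · rfl
    · fin_cases a
      · exact absurd h.symm b.2.1
      · exact absurd h.symm b.2.2
    · fin_cases b
      · exact absurd h a.2.1
      · exact absurd h a.2.2
    · exact congrArg Sum.inr (Subtype.ext h)
  · intro i
    by_cases h1 : i = p
    · exact ⟨Sum.inl 0, h1.symm⟩
    · by_cases h2 : i = q
      · exact ⟨Sum.inl 1, h2.symm⟩
      · exact ⟨Sum.inr ⟨i, h1, h2⟩, rfl⟩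

theorem t_EMB : S_EMB := by
  intro n p q x y z U V hpq hU1 hU2 hV1 hV2 hd ho
  obtain ⟨e, he0, he1, heR⟩ := exists_equiv n p q hpq
  have key : ∀ w : Fin n → ℂ, Matrix.diagonal w =
      (Matrix.fromBlocks (Matrix.diagonal ![w p, w q]) 0 0
        (Matrix.diagonal fun i : {i : Fin n // i ≠ p ∧ i ≠ q} => w i.1)).submatrix e.symm e.symm := by
    intro w
    rw [Matrix.fromBlocks_diagonal, Matrix.submatrix_diagonal_equiv]
    congr 1
    funext i
    obtain ⟨j, rfl⟩ := e.surjective i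
    rw [Function.comp_apply, Equiv.symm_apply_apply]
    rcases j with j | j
    · fin_cases j
      · exact congrArg w he0
      · exact congrArg w he1
    · exact congrArg w (heR j)
  have hun : ∀ W : Matrix (Fin 2) (Fin 2) ℂ, Wᴴ * W = 1 → W * Wᴴ = 1 →
      ((Matrix.fromBlocks W 0 0 (1 : Matrix {i : Fin n // i ≠ p ∧ i ≠ q} _ ℂ)).submatrix
        e.symm e.symm)ᴴ * ((Matrix.fromBlocks W 0 0 1).submatrix e.symm e.symm) = 1 ∧
      ((Matrix.fromBlocks W 0 0 (1 : Matrix {i : Fin n // i ≠ p ∧ i ≠ q} _ ℂ)).submatrix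
        e.symm e.symm) * ((Matrix.fromBlocks W 0 0 1).submatrix e.symm e.symm)ᴴ = 1 := by
    intro W h1 h2
    constructor
    · rw [Matrix.conjTranspose_submatrix, Matrix.submatrix_mul_equiv, Matrix.fromBlocks_conjTranspose,
        Matrix.fromBlocks_multiply]
      simp [h1]
    · rw [Matrix.conjTranspose_submatrix, Matrix.submatrix_mul_equiv, Matrix.fromBlocks_conjTranspose,
        Matrix.fromBlocks_multiply]
      simp [h2]
  refine ⟨(Matrix.fromBlocks U 0 0 1).submatrix e.symm e.symm,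
    (Matrix.fromBlocks V 0 0 1).submatrix e.symm e.symm, (hun U hU1 hU2).1, (hun U hU1 hU2).2,
    (hun V hV1 hV2).1, (hun V hV1 hV2).2, ?_⟩
  rw [key z, key x, key y]
  simp only [Matrix.conjTranspose_submatrix, Matrix.submatrix_mul_equiv,
    Matrix.fromBlocks_conjTranspose, Matrix.fromBlocks_multiply, Matrix.conjTranspose_zero,
    Matrix.conjTranspose_one, Matrix.mul_zero, Matrix.zero_mul, add_zero, zero_add, Matrix.one_mul,
    Matrix.mul_one, Matrix.diagonal_mul_diagonal]
  rw [← hd]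
  congr 3
  funext i
  exact (ho i.1 i.2.1 i.2.2).symm

end Run7.h774.SU
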