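import Pool.Agent.Run7.h222.SU.Stm

/-!
Project SU of helper222 (MP_ca7eb7_al), piece W, by helper774.
-/

set_option autoImplicit false

open Matrix Run7.h222.SU

namespace Run7.h774.SU

theorem exp_two (a b : ℂ) : Complex.exp (a * Complex.I) + Complex.exp (b * Complex.I) =
    Complex.exp ((a + b) / 2 * Complex.I) * (2 * Complex.cos ((a - b) / 2)) := by
  rw [Complex.cos, mul_div_cancel₀ _ (two_ne_zero), mul_add, ← Complex.exp_add, ← Complex.exp_add]
  congr 2 <;> ring

theorem weight (A B : ℝ) (h : A * B ≤ 0) : ∃ w : ℝ, 0 ≤ w ∧ w ≤ 1 ∧ w * B + (1 - w) * A = 0 := by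
  rcases lt_trichotomy A 0 with hA | hA | hA
  · have hB : 0 ≤ B := by
      by_contra hc
      push Not at hc
      nlinarith [mul_pos_of_neg_of_neg hA hc]
    have hd : A - B < 0 := by linarith
    refine ⟨A / (A - B), div_nonneg_of_nonpos hA.le hd.le, ?_, ?_⟩
    · rw [div_le_one_of_neg hd]
      linarith
    · have : A - B ≠ 0 := hd.ne
      field_simp
      ring
  · exact ⟨0, le_refl _, zero_le_one, by rw [hA]; ring⟩
  · have hB : B ≤ 0 := by
      by_contra hc
      push Not at hc
      nlinarith [mul_pos hA hc]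
    have hd : 0 < A - B := by linarith
    refine ⟨A / (A - B), div_nonneg hA.le hd.le, ?_, ?_⟩
    · rw [div_le_one hd]
      linarith
    · have : A - B ≠ 0 := hd.ne'
      field_simp
      ring

theorem cos_diff (τ η x : ℝ) : Real.cos ((τ - η) / 2 - x) - Real.cos ((τ + η) / 2) =
    2 * (Real.sin ((τ - x) / 2) * Real.sin ((x + η) / 2)) := by
  rw [Real.cos_sub_cos]
  have h1 : ((τ - η) / 2 - x + (τ + η) / 2) / 2 = (τ - x) / 2 := by ring
  have h2 : ((τ - η) / 2 - x - (τ + η) / 2) / 2 = -((x + η) / 2) := by ring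
  rw [h1, h2, Real.sin_neg]
  ring

theorem t_W : S_W := by
  intro φ γ η τ h
  obtain ⟨w, hw0, hw1, hw⟩ := weight _ _ h
  refine ⟨w, hw0, hw1, ?_⟩
  have h1 := cos_diff τ η φ
  have h2 := cos_diff τ η γ
  have h3 : Real.cos ((τ + η) / 2) = w * Real.cos ((τ - η) / 2 - γ) +
      (1 - w) * Real.cos ((τ - η) / 2 - φ) := by
    linear_combination (-2) * hw - w * h2 - (1 - w) * h1
  have h4 : Complex.cos ((τ + η) / 2) = w * Complex.cos ((τ - η) / 2 - γ) +
      (1 - w) * Complex.cos ((τ - η) / 2 - φ) := by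
    have := congrArg (fun t : ℝ => (t : ℂ)) h3
    push_cast at this
    exact this
  have e1 : Complex.exp (τ * Complex.I) + Complex.exp (-(η * Complex.I)) =
      Complex.exp (((τ : ℂ) - η) / 2 * Complex.I) * (2 * Complex.cos ((τ + η) / 2)) := by
    have := exp_two τ (-η)
    rw [neg_mul] at this
    rw [this]
    congr 3 <;> ring
  have e2 : Complex.exp ((τ - η - γ) * Complex.I) + Complex.exp (γ * Complex.I) =
      Complex.exp (((τ : ℂ) - η) / 2 * Complex.I) * (2 * Complex.cos ((τ - η) / 2 - γ)) := by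
    rw [exp_two]
    congr 3 <;> ring
  have e3 : Complex.exp (φ * Complex.I) + Complex.exp ((τ - η - φ) * Complex.I) =
      Complex.exp (((τ : ℂ) - η) / 2 * Complex.I) * (2 * Complex.cos ((τ - η) / 2 - φ)) := by
    rw [add_comm, exp_two]
    congr 3 <;> ring
  rw [e1, e2, e3, h4]
  ring

end Run7.h774.SU
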